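import Mathlib
import Pool.Agent.Run7.h602.GalPow

/-!
# Filters without the Galvin property for families of size `2 ^ κ`

Let `κ` be a regular uncountable cardinal with `2 ^ μ ≤ κ` for all `μ < κ`; under GCH this holds
for every regular uncountable `κ`. Then there is a proper `κ`-complete filter `F` over `κ` which
contains every club subset of `κ` and has `2 ^ κ` members such that no `κ` of them have their
intersection in `F`. In particular `F` does not have the Galvin property.
-/

set_option autoImplicit false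

namespace Pool.Agent.Results.MP_45cf3b_lc.PowerManySets

open Cardinal Set

universe u

/-- The filter `F` over the cardinal `κ` is `κ`-complete: the intersection of fewer than `κ`
members of `F` is a member of `F`. -/
def Complete (κ : Cardinal.{u}) (F : Filter κ.ord.ToType) : Prop :=
  ∀ S : Set (Set κ.ord.ToType), #S < κ → (∀ s ∈ S, s ∈ F) → ⋂₀ S ∈ F

/-- `Gal(F, κ, lam)`: among any `lam` members of the filter `F` over `κ` there are `κ` many whose
intersection is a member of `F`. -/
def Gal (κ lam : Cardinal.{u}) (F : Filter κ.ord.ToType) : Prop :=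
  ∀ S : Set (Set κ.ord.ToType), #S = lam → (∀ s ∈ S, s ∈ F) →
    ∃ T ⊆ S, #T = κ ∧ ⋂₀ T ∈ F

/-- The filter `F` over the cardinal `κ` has the Galvin property: for every sequence of `κ⁺`
members of `F` there is a set of `κ` many indices with intersection in `F`. -/
def Galvin (κ : Cardinal.{u}) (F : Filter κ.ord.ToType) : Prop :=
  ∀ A : (Order.succ κ).ord.ToType → Set κ.ord.ToType, (∀ i, A i ∈ F) →
    ∃ I : Set (Order.succ κ).ord.ToType, #I = κ ∧ ⋂ i ∈ I, A i ∈ F

theorem result (κ : Cardinal.{u}) (hκ : κ.IsRegular) (hω : ℵ₀ < κ)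
    (hpow : ∀ μ < κ, (2 : Cardinal.{u}) ^ μ ≤ κ) :
    ∃ F : Filter κ.ord.ToType, F.NeBot ∧ Complete κ F ∧ (∀ C, IsClub C → C ∈ F) ∧
      (∀ lam, κ ≤ lam → lam ≤ 2 ^ κ → ¬ Gal κ lam F) ∧ ¬ Galvin κ F := by
  classical
  obtain ⟨h, hh⟩ := Run7.h602.GalPow.exists_branches hκ hpow
  obtain ⟨F, h1, h2, h3, A, hinj, hA, hA2⟩ := Run7.h602.GalPow.main hκ hω h hh
  have hΛ : #(Set κ.ord.ToType) = 2 ^ κ := by rw [mk_set, Cardinal.mk_toType, card_ord]
  refine ⟨F, h1, h2, h3, fun lam _ hlam hG => ?_, fun hG => ?_⟩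
  · obtain ⟨L, hL⟩ := (Cardinal.le_mk_iff_exists_set (α := Set κ.ord.ToType)).1
      (hΛ ▸ hlam : lam ≤ #(Set κ.ord.ToType))
    obtain ⟨T, hT, hTc, hTF⟩ := hG (A '' L) (by rw [mk_image_eq hinj, hL]) (by
      rintro _ ⟨i, _, rfl⟩
      exact hA i)
    refine hA2 (A ⁻¹' T) ?_ ?_
    · have h4 : A '' (A ⁻¹' T) = T := by
        rw [image_preimage_eq_inter_range, inter_eq_left]
        exact hT.trans (image_subset_range A L)
      rw [← mk_image_eq hinj, h4, hTc]
    · refine Filter.mem_of_superset hTF ?_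
      intro x hx
      simp only [mem_iInter]
      intro i hi
      exact hx _ hi
  · have hle : #(Order.succ κ).ord.ToType ≤ #(Set κ.ord.ToType) := by
      rw [Cardinal.mk_toType, card_ord, hΛ]
      exact Order.succ_le_of_lt (cantor κ)
    obtain ⟨e⟩ := hle
    obtain ⟨I, hI, hIF⟩ := hG (fun i => A (e i)) fun i => hA (e i)
    refine hA2 (e '' I) (by rw [mk_image_eq e.injective, hI]) ?_
    rwa [biInter_image]

end Pool.Agent.Results.MP_45cf3b_lc.PowerManySets
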